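import Pool.Agent.H225.ConfocalGeo

set_option autoImplicit false

namespace Pool.Agent.Results.MP_4e5648_mp.CircleEllipseTen

open Pool.Agent.H225.Confocal

lemma exists_normal (a b : EuclideanSpace ℝ (Fin 3)) (ha : ‖a‖ = 1) (hb : ‖b‖ = 1)
    (hab : inner ℝ a b = 0) :
    ∃ n : EuclideanSpace ℝ (Fin 3), ‖n‖ = 1 ∧ ∀ x y : EuclideanSpace ℝ (Fin 3),
      inner ℝ x y = inner ℝ x a*inner ℝ y a+inner ℝ x b*inner ℝ y b+inner ℝ x n*inner ℝ y n := by
  have hv : Orthonormal ℝ (({0, 1} : Set (Fin 3)).domRestrict (![a, b, 0] : Fin 3 → EuclideanSpace ℝ (Fin 3))) := by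
    constructor
    · rintro ⟨i, hi⟩
      rcases hi with rfl | hi
      · change ‖a‖ = 1; exact ha
      · rw [Set.mem_singleton_iff] at hi; subst hi; change ‖b‖ = 1; exact hb
    · rintro ⟨i, hi⟩ ⟨j, hj⟩ hij
      rcases hi with rfl | hi
      · rcases hj with rfl | hj
        · exact absurd rfl hij
        · rw [Set.mem_singleton_iff] at hj; subst hj; change inner ℝ a b = 0; exact hab
      · rw [Set.mem_singleton_iff] at hi; subst hi
        rcases hj with rfl | hj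
        · change inner ℝ b a = 0; rw [real_inner_comm]; exact hab
        · rw [Set.mem_singleton_iff] at hj; subst hj; exact absurd rfl hij
  obtain ⟨B, hB⟩ := hv.exists_orthonormalBasis_extension_of_card_eq (by simp)
  have h0 : B 0 = a := by simpa using hB 0 (by simp)
  have h1 : B 1 = b := by simpa using hB 1 (by simp)
  refine ⟨B 2, B.orthonormal.1 2, fun x y => ?_⟩
  have h := B.sum_inner_mul_inner x y
  rw [Fin.sum_univ_three, h0, h1] at h
  rw [← h, real_inner_comm y a, real_inner_comm y b, real_inner_comm y (B 2)]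

/-- **At most ten stationary points for a circle and an ellipse centred/focused at the same point.**
`P` is the standard (eccentric anomaly) parametrisation of an ellipse with semi-major axis `a`,
eccentricity `0 < e < 1` and focus `F`; `Q` is a circle of radius `r` centred at `F`. -/
theorem result :
    ∀ (F u₁ w₁ u₂ w₂ : EuclideanSpace ℝ (Fin 3)) (a e r : ℝ)
      (P P' Q Q' : ℝ → EuclideanSpace ℝ (Fin 3)),
      0 < a → 0 < e → e < 1 → 0 < r →
      ‖u₁‖ = 1 → ‖w₁‖ = 1 → inner ℝ u₁ w₁ = 0 →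
      ‖u₂‖ = 1 → ‖w₂‖ = 1 → inner ℝ u₂ w₂ = 0 →
      (∀ s : ℝ, P s = F + (a * (e + Real.cos s)) • u₁
          + (a * Real.sqrt (1 - e ^ 2) * Real.sin s) • w₁) →
      (∀ s : ℝ, P' s = (-(a * Real.sin s)) • u₁
          + (a * Real.sqrt (1 - e ^ 2) * Real.cos s) • w₁) →
      (∀ t : ℝ, Q t = F + (r * Real.cos t) • u₂ + (r * Real.sin t) • w₂) →
      (∀ t : ℝ, Q' t = (-(r * Real.sin t)) • u₂ + (r * Real.cos t) • w₂) →
      ({x : EuclideanSpace ℝ (Fin 3) × EuclideanSpace ℝ (Fin 3) |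
          ∃ s t : ℝ, x = (P s, Q t) ∧ inner ℝ (P s - Q t) (P' s) = 0 ∧
            inner ℝ (P s - Q t) (Q' t) = 0}).encard ≤ 10 := by
  intro F u₁ w₁ u₂ w₂ a e r P P' Q Q' ha h0 h1e hr hu1 hw1 huw1 hu2 hw2 huw2 hP hP' hQ hQ'
  obtain ⟨n, hn, hpar⟩ := exists_normal u₂ w₂ hu2 hw2 huw2
  have h11 : inner ℝ u₁ u₁ = (1:ℝ) := by rw [real_inner_self_eq_norm_sq, hu1]; norm_num
  have h22 : inner ℝ w₁ w₁ = (1:ℝ) := by rw [real_inner_self_eq_norm_sq, hw1]; norm_num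
  have hnn : inner ℝ n n = (1:ℝ) := by rw [real_inner_self_eq_norm_sq, hn]; norm_num
  have hp11 := hpar u₁ u₁
  have hp22 := hpar w₁ w₁
  have hp12 := hpar u₁ w₁
  rw [h11] at hp11
  rw [h22] at hp22
  rw [huw1] at hp12
  have hη : 0 < 1-e^2 := by nlinarith
  set η := Real.sqrt (1-e^2) with hηd
  have hη2 : η^2 = 1-e^2 := Real.sq_sqrt hη.le
  have hηp : 0 < η := Real.sqrt_pos.mpr hη
  have hν : (-(inner ℝ u₁ n : ℝ))^2+(inner ℝ w₁ n : ℝ)^2 ≤ 1 := by
    have h := real_inner_self_nonneg (x := n-(inner ℝ u₁ n : ℝ)•u₁-(inner ℝ w₁ n : ℝ)•w₁)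
    simp only [inner_sub_left, inner_sub_right, inner_smul_left, inner_smul_right, h11, h22, hnn,
      huw1, real_inner_comm u₁ w₁, real_inner_comm n u₁, real_inner_comm n w₁] at h
    simp at h
    have c1 : (inner ℝ n u₁ : ℝ) = inner ℝ u₁ n := real_inner_comm _ _
    have c2 : (inner ℝ n w₁ : ℝ) = inner ℝ w₁ n := real_inner_comm _ _
    rw [c1, c2] at h
    nlinarith
  have key := St_le (F := F) (u := -u₁) (v := w₁) (a := u₂) (b := w₂) (p := a*(1-e^2)) (e := e)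
    (r := r) (A1 := -(inner ℝ u₁ u₂ : ℝ)) (A2 := inner ℝ w₁ u₂) (B1 := -(inner ℝ u₁ w₂ : ℝ))
    (B2 := inner ℝ w₁ w₂) (n1 := -(inner ℝ u₁ n : ℝ)) (n2 := inner ℝ w₁ n)
    (by positivity) h0 h1e hr (by linear_combination -hp11) (by linear_combination -hp22)
    (by linear_combination hp12) hν
  refine (Set.encard_le_encard ?_).trans key
  rintro _ ⟨s, t, rfl, hs1, hs2⟩
  have hcs := Real.sin_sq_add_cos_sq s
  have hct := Real.sin_sq_add_cos_sq t
  have hW : 0 < 1+e*Real.cos s := w_pos h0 h1e s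
  obtain ⟨c, hcd⟩ : ∃ c, c = -(e+Real.cos s)/(1+e*Real.cos s) := ⟨_, rfl⟩
  obtain ⟨σ, hσd⟩ : ∃ σ, σ = η*Real.sin s/(1+e*Real.cos s) := ⟨_, rfl⟩
  have hc : c*(1+e*Real.cos s) = -(e+Real.cos s) := by rw [hcd]; field_simp
  have hσ : σ*(1+e*Real.cos s) = η*Real.sin s := by rw [hσd]; field_simp
  have hcσ : c^2+σ^2 = 1 := by
    have h : (c^2+σ^2)*(1+e*Real.cos s)^2 = 1*(1+e*Real.cos s)^2 := by
      have e1 : (c^2+σ^2)*(1+e*Real.cos s)^2
          = (c*(1+e*Real.cos s))^2+(σ*(1+e*Real.cos s))^2 := by ring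
      rw [e1, hc, hσ]
      linear_combination (Real.sin s)^2*hη2+(1-e^2)*hcs
    exact mul_right_cancel₀ (by positivity) h
  have hWc : (1+e*c)*(1+e*Real.cos s) = η^2 := by
    rw [hη2]; linear_combination e*hc
  have hWcp : 0 < 1+e*c := by
    have : 0 < (1+e*c)*(1+e*Real.cos s) := by rw [hWc]; positivity
    exact (mul_pos_iff_of_pos_right hW).mp this
  have hu22 : inner ℝ u₂ u₂ = (1:ℝ) := by rw [real_inner_self_eq_norm_sq, hu2]; norm_num
  have hw22 : inner ℝ w₂ w₂ = (1:ℝ) := by rw [real_inner_self_eq_norm_sq, hw2]; norm_num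
  have hsub : P s-Q t = (a*(e+Real.cos s))•u₁+(a*η*Real.sin s)•w₁
      -((r*Real.cos t)•u₂+(r*Real.sin t)•w₂) := by
    rw [hP, hQ]; abel
  have g1 : (inner ℝ w₁ u₁ : ℝ) = 0 := by rw [real_inner_comm]; exact huw1
  have g2 : (inner ℝ w₂ u₂ : ℝ) = 0 := by rw [real_inner_comm]; exact huw2
  have g3 : (inner ℝ u₂ u₁ : ℝ) = inner ℝ u₁ u₂ := real_inner_comm _ _
  have g4 : (inner ℝ u₂ w₁ : ℝ) = inner ℝ w₁ u₂ := real_inner_comm _ _
  have g5 : (inner ℝ w₂ u₁ : ℝ) = inner ℝ u₁ w₂ := real_inner_comm _ _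
  have g6 : (inner ℝ w₂ w₁ : ℝ) = inner ℝ w₁ w₂ := real_inner_comm _ _
  rw [hsub, hP'] at hs1
  rw [hsub, hQ'] at hs2
  simp only [inner_sub_left, inner_add_left, inner_add_right, inner_smul_left, inner_smul_right,
    h11, h22, huw1, hu22, hw22, huw2, g1, g2, g3, g4, g5, g6, conj_trivial] at hs1 hs2
  refine ⟨c, σ, Real.cos t, Real.sin t, hcσ, by linarith, ⟨?_, ?_⟩, ?_⟩
  · -- first stationarity equation
    have h2 : (a*r)*((c*-(inner ℝ u₁ u₂ : ℝ)+σ*inner ℝ w₁ u₂)*Real.sin t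
        -(c*-(inner ℝ u₁ w₂ : ℝ)+σ*inner ℝ w₁ w₂)*Real.cos t)*(1+e*Real.cos s) = 0 := by
      linear_combination -hs2
        +(a*r)*(-(inner ℝ u₁ u₂ : ℝ)*Real.sin t+(inner ℝ u₁ w₂ : ℝ)*Real.cos t)*hc
        +(a*r)*((inner ℝ w₁ u₂ : ℝ)*Real.sin t-(inner ℝ w₁ w₂ : ℝ)*Real.cos t)*hσ
    have h3 := (mul_eq_zero.mp h2).resolve_right hW.ne'
    have h4 := (mul_eq_zero.mp h3).resolve_left (by positivity)
    linarith
  · -- second stationarity equation
    have star : a*e*Real.sin s*(1+e*Real.cos s)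
        +r*(Real.sin s*(-(inner ℝ u₁ u₂ : ℝ)*Real.cos t-(inner ℝ u₁ w₂ : ℝ)*Real.sin t)
          +η*Real.cos s*((inner ℝ w₁ u₂ : ℝ)*Real.cos t+(inner ℝ w₁ w₂ : ℝ)*Real.sin t)) = 0 := by
      have h2 : a*(a*e*Real.sin s*(1+e*Real.cos s)
        +r*(Real.sin s*(-(inner ℝ u₁ u₂ : ℝ)*Real.cos t-(inner ℝ u₁ w₂ : ℝ)*Real.sin t)
          +η*Real.cos s*((inner ℝ w₁ u₂ : ℝ)*Real.cos t+(inner ℝ w₁ w₂ : ℝ)*Real.sin t))) = 0 := by
        linear_combination -hs1+a^2*Real.sin s*Real.cos s*hη2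
      exact (mul_eq_zero.mp h2).resolve_left ha.ne'
    obtain ⟨x1, hx1⟩ : ∃ x1 : ℝ, x1 = -(inner ℝ u₁ u₂ : ℝ)*Real.cos t-(inner ℝ u₁ w₂ : ℝ)*Real.sin t :=
      ⟨_, rfl⟩
    obtain ⟨x2, hx2⟩ : ∃ x2 : ℝ, x2 = (inner ℝ w₁ u₂ : ℝ)*Real.cos t+(inner ℝ w₁ w₂ : ℝ)*Real.sin t :=
      ⟨_, rfl⟩
    rw [← hx1, ← hx2] at star
    have hec : (e+c)*(1+e*Real.cos s) = -(η^2*Real.cos s) := by
      rw [hη2]; linear_combination hc
    have goal' : a*(1-e^2)*e*σ = r*(1+e*c)*(-(σ*x1)+(e+c)*x2) := by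
      have h5 : (a*(1-e^2)*e*σ)*(1+e*Real.cos s)^2
          = (r*(1+e*c)*(-(σ*x1)+(e+c)*x2))*(1+e*Real.cos s)^2 := by
        have e1 : (a*(1-e^2)*e*σ)*(1+e*Real.cos s)^2
            = a*(1-e^2)*e*(σ*(1+e*Real.cos s))*(1+e*Real.cos s) := by ring
        have e2 : (r*(1+e*c)*(-(σ*x1)+(e+c)*x2))*(1+e*Real.cos s)^2
            = r*((1+e*c)*(1+e*Real.cos s))*(-((σ*(1+e*Real.cos s))*x1)
              +((e+c)*(1+e*Real.cos s))*x2) := by ring
        rw [e1, e2, hWc, hσ, hec, ← hη2]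
        linear_combination η^3*star
      exact mul_right_cancel₀ (by positivity) h5
    rw [goal', hx1, hx2]
    linear_combination (-(r*(1+e*c)*e*(inner ℝ w₁ u₂*Real.cos t+inner ℝ w₁ w₂*Real.sin t)))*hcσ
  · -- the points
    apply Prod.ext
    · simp only [pt]
      rw [hP]
      have e1 : a*(1-e^2)/(1+e*c) = a*(1+e*Real.cos s) := by
        rw [div_eq_iff hWcp.ne', ← hη2]; linear_combination -a*hWc
      rw [e1, smul_add, smul_smul, smul_neg, smul_smul, ← neg_smul, add_assoc]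
      congr 2
      · congr 1; linear_combination a*hc
      · congr 1; linear_combination -a*hσ
    · simp only [cp]
      rw [hQ, smul_add, smul_smul, smul_smul, add_assoc]

end Pool.Agent.Results.MP_4e5648_mp.CircleEllipseTen
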